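import Pool.Agent.Helper64.BKS.Stmts

/-!
Project BKS, row CYCX: every number field has cyclic extensions of degree `ℓ` (the cyclotomic extension).
-/

set_option autoImplicit false

open NumberField
open scoped Classical

namespace BKS

open BKA (Gal Zb Pl q Over Congr)

namespace CYCX34

theorem exists_add_aux {V : Type} [AddCommGroup V] {ℓ : ℕ} [Fact ℓ.Prime] [Module (ZMod ℓ) V]
    (y : V) (hy : y ≠ 0) : ∃ φ : V →+ ZMod ℓ, φ y ≠ 0 := by
  by_contra hcon
  push Not at hcon
  exact hy ((Module.forall_dual_apply_eq_zero_iff (ZMod ℓ) y).mp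
    (fun φ => hcon (LinearMap.toAddMonoidHom φ)))

theorem exists_add {V : Type} [AddCommGroup V] {ℓ : ℕ} (hℓ : ℓ.Prime) (hQ : ∀ z : V, ℓ • z = 0)
    (y : V) (hy : y ≠ 0) : ∃ φ : V →+ ZMod ℓ, φ y ≠ 0 :=
  @exists_add_aux V _ ℓ ⟨hℓ⟩ (AddCommGroup.zmodModule hQ) y hy

/-- a finite abelian group of order divisible by `ℓ` has a nontrivial homomorphism to `ℤ/ℓ` -/
theorem exists_hom {C : Type} [CommGroup C] [Finite C] {ℓ : ℕ} (hℓ : ℓ.Prime)
    (h : ℓ ∣ Nat.card C) : ∃ f : C →* Multiplicative (ZMod ℓ), f ≠ 1 := by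
  have : Fact ℓ.Prime := ⟨hℓ⟩
  obtain ⟨x, hx⟩ := exists_prime_orderOf_dvd_card' ℓ h
  let p : C →* C := powMonoidHom ℓ
  have hnotinj : ¬ Function.Injective p := by
    intro hi
    have h1 : x = 1 := hi (by
      show x ^ ℓ = 1 ^ ℓ
      rw [one_pow, ← hx, pow_orderOf_eq_one])
    rw [h1, orderOf_one] at hx
    exact hℓ.one_lt.ne hx
  have hnotsurj : ¬ Function.Surjective p := fun hs => hnotinj (Finite.injective_iff_surjective.mpr hs)
  obtain ⟨y, hy⟩ := not_forall.mp hnotsurj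
  have hy' : y ∉ p.range := fun ⟨z, hz⟩ => hy ⟨z, hz⟩
  have hQ : ∀ z : Additive (C ⧸ p.range), ℓ • z = 0 := by
    intro z
    obtain ⟨c, hc⟩ := QuotientGroup.mk_surjective (s := p.range) (Additive.toMul z)
    have h1 : (Additive.toMul z) ^ ℓ = 1 := by
      rw [← hc, ← QuotientGroup.mk_pow, QuotientGroup.eq_one_iff]
      exact ⟨c, rfl⟩
    exact h1
  have hy0 : Additive.ofMul (QuotientGroup.mk y : C ⧸ p.range) ≠ 0 := by
    intro h0
    have h1 : (QuotientGroup.mk y : C ⧸ p.range) = 1 := h0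
    rw [QuotientGroup.eq_one_iff] at h1
    exact hy' h1
  obtain ⟨φ, hφ⟩ := exists_add hℓ hQ _ hy0
  refine ⟨MonoidHom.mk' (fun c => Multiplicative.ofAdd
    (φ (Additive.ofMul (QuotientGroup.mk c : C ⧸ p.range)))) ?_, ?_⟩
  · intro a b
    rw [QuotientGroup.mk_mul, ofMul_mul, map_add, ofAdd_add]
  · intro h1
    apply hφ
    have h2 := DFunLike.congr_fun h1 y
    exact h2

end CYCX34

open CYCX34 in
theorem st_CYCX : ST_CYCX := by
  intro F _ _ Γ hΓ ℓ hℓ
  have : Fact ℓ.Prime := ⟨hℓ⟩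
  have hfin : Finite (Gal F ⧸ Γ) := Subgroup.quotient_finite_of_isOpen Γ hΓ
  set k : ℕ := Module.finrank ℚ F * (Nat.card (Gal F ⧸ Γ) * (ℓ - 1)) with hk
  have hNZ : NeZero (ℓ ^ (k + 1)) := ⟨pow_ne_zero _ hℓ.ne_zero⟩
  have hN0 : 0 < ℓ ^ (k + 1) := pow_pos hℓ.pos _
  obtain ⟨μ, hμ⟩ : ∃ μ : AlgebraicClosure F, IsPrimitiveRoot μ (ℓ ^ (k + 1)) := by
    have hne : ((ℓ ^ (k + 1) : ℕ) : AlgebraicClosure F) ≠ 0 := by
      rw [Nat.cast_ne_zero]
      exact pow_ne_zero _ hℓ.ne_zero
    have : NeZero ((ℓ ^ (k + 1) : ℕ) : AlgebraicClosure F) := ⟨hne⟩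
    exact HasEnoughRootsOfUnity.exists_primitiveRoot (AlgebraicClosure F) (ℓ ^ (k + 1))
  let c : Gal F →* (ZMod (ℓ ^ (k + 1)))ˣ := hμ.autToPow F
  have hc : ∀ σ : Gal F, μ ^ (c σ : ZMod (ℓ ^ (k + 1))).val = σ μ := fun σ => hμ.autToPow_spec F σ
  let C : Subgroup (ZMod (ℓ ^ (k + 1)))ˣ := (c.comp Γ.subtype).range
  have hdvd : ℓ ∣ Nat.card C := by
    by_contra hnd
    have hcop : Nat.Coprime (Nat.card C) ℓ := ((Nat.Prime.coprime_iff_not_dvd hℓ).mpr hnd).symm
    have h1 : Nat.card C ∣ ℓ ^ k * (ℓ - 1) := by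
      rw [← Nat.totient_prime_pow_succ hℓ, ← ZMod.card_units_eq_totient, ← Nat.card_eq_fintype_card]
      exact Subgroup.card_subgroup_dvd_card C
    have h2 : Nat.card C ∣ ℓ - 1 := (Nat.Coprime.pow_right k hcop).dvd_of_dvd_mul_left h1
    have h3 : Nat.card C ≤ ℓ - 1 := Nat.le_of_dvd (Nat.sub_pos_of_lt hℓ.one_lt) h2
    -- the image of the whole group
    have h4 : Nat.card c.range ≤ Nat.card (Gal F ⧸ Γ) * Nat.card C := by
      rw [← Nat.card_prod]
      refine Nat.card_le_card_of_surjective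
        (fun z : (Gal F ⧸ Γ) × C => (⟨c z.1.out * z.2, ?_⟩ : c.range)) ?_
      · obtain ⟨γ, hγ⟩ := z.2.2
        refine c.range.mul_mem ⟨_, rfl⟩ ⟨γ, hγ⟩
      · rintro ⟨_, σ, rfl⟩
        have h5 : (QuotientGroup.mk σ : Gal F ⧸ Γ).out⁻¹ * σ ∈ Γ := by
          rw [← QuotientGroup.eq, QuotientGroup.out_eq']
        refine ⟨(QuotientGroup.mk σ, ⟨c ((QuotientGroup.mk σ : Gal F ⧸ Γ).out⁻¹ * σ),
          ⟨⟨_, h5⟩, rfl⟩⟩), ?_⟩
        apply Subtype.ext
        show c _ * c _ = c σ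
        rw [← map_mul]
        congr 1
        group
    -- the degree over F
    have hint : IsIntegral F μ := Algebra.IsIntegral.isIntegral μ
    have h5 : (minpoly F μ).natDegree ≤ Nat.card c.range := by
      have hsep : (minpoly F μ).Separable := (minpoly.irreducible hint).separable
      have hspl : ((minpoly F μ).map (algebraMap F (AlgebraicClosure F))).Splits :=
        IsAlgClosed.splits _
      rw [← Polynomial.card_rootSet_eq_natDegree hsep hspl, ← Nat.card_eq_fintype_card]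
      have hroot : ∀ y : (minpoly F μ).rootSet (AlgebraicClosure F), ∃ σ : Gal F, σ μ = y := by
        intro y
        have h6 : minpoly F (y : AlgebraicClosure F) = minpoly F μ := by
          have h7 := (Polynomial.mem_rootSet.mp y.2).2
          exact (minpoly.eq_of_irreducible_of_monic (minpoly.irreducible hint) h7
            (minpoly.monic hint)).symm
        obtain ⟨σ, hσ⟩ := Normal.minpoly_eq_iff_mem_orbit (AlgebraicClosure F) |>.mp h6
        exact ⟨σ, hσ⟩
      choose τ hτ using hroot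
      refine Nat.card_le_card_of_injective (fun y => (⟨c (τ y), ⟨_, rfl⟩⟩ : c.range)) ?_
      intro y z hyz
      have h8 : c (τ y) = c (τ z) := congrArg Subtype.val hyz
      apply Subtype.ext
      rw [← hτ y, ← hτ z, ← hc, ← hc, h8]
    -- the degree over ℚ
    have h6 : ℓ ^ k * (ℓ - 1) ≤ Module.finrank ℚ F * (minpoly F μ).natDegree := by
      rw [← Nat.totient_prime_pow_succ hℓ]
      have h7 : (minpoly ℚ μ).natDegree = Nat.totient (ℓ ^ (k + 1)) := by
        rw [← Polynomial.cyclotomic_eq_minpoly_rat hμ hN0, Polynomial.natDegree_cyclotomic]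
      have hfd : FiniteDimensional F (IntermediateField.adjoin F {μ}) :=
        IntermediateField.adjoin.finiteDimensional hint
      have hfdQ : FiniteDimensional ℚ (IntermediateField.adjoin F {μ}) :=
        FiniteDimensional.trans ℚ F _
      have h8 : Module.finrank ℚ (IntermediateField.adjoin F {μ}) =
          Module.finrank ℚ F * (minpoly F μ).natDegree := by
        rw [← IntermediateField.adjoin.finrank hint]
        exact (Module.finrank_mul_finrank ℚ F _).symm
      rw [← h8, ← h7]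
      have h9 := minpoly.natDegree_le (A := ℚ) (IntermediateField.AdjoinSimple.gen F μ)
      have h10 : minpoly ℚ (IntermediateField.AdjoinSimple.gen F μ) = minpoly ℚ μ := by
        have h11 := minpoly.algebraMap_eq (A := ℚ) (B := IntermediateField.adjoin F {μ})
          (B' := AlgebraicClosure F) Subtype.val_injective
          (IntermediateField.AdjoinSimple.gen F μ)
        rw [← h11]
        rfl
      rw [h10] at h9
      exact h9
    have h7 : ℓ ^ k * (ℓ - 1) ≤ k := by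
      refine h6.trans ?_
      rw [hk]
      exact Nat.mul_le_mul_left _ (h5.trans (h4.trans (Nat.mul_le_mul_left _ h3)))
    have h8 : k < 2 ^ k := Nat.lt_two_pow_self
    have h9 : 2 ^ k ≤ ℓ ^ k := Nat.pow_le_pow_left hℓ.two_le k
    have h10 : ℓ ^ k ≤ ℓ ^ k * (ℓ - 1) := Nat.le_mul_of_pos_right _ (Nat.sub_pos_of_lt hℓ.one_lt)
    omega
  obtain ⟨f, hf⟩ := exists_hom hℓ hdvd
  refine ⟨f.comp (c.comp Γ.subtype).rangeRestrict, ?_, ?_⟩
  · refine ⟨(IntermediateField.adjoin F {μ}).fixingSubgroup, ?_, ?_⟩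
    · have hfd : FiniteDimensional F (IntermediateField.adjoin F {μ}) :=
        IntermediateField.adjoin.finiteDimensional (Algebra.IsIntegral.isIntegral μ)
      exact IntermediateField.fixingSubgroup_isOpen _
    · intro σ h hσ
      have h1 : σ μ = μ := (IntermediateField.mem_fixingSubgroup_iff _ _).mp hσ μ
        (IntermediateField.mem_adjoin_simple_self F μ)
      have h2 : c σ = 1 := by
        have h3 := hc σ
        rw [h1] at h3
        have h4 : μ ^ (c σ : ZMod (ℓ ^ (k + 1))).val = μ ^ 1 := by rw [h3, pow_one]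
        have hlt : 1 < ℓ ^ (k + 1) := Nat.one_lt_pow (Nat.succ_ne_zero _) hℓ.one_lt
        have h5 := hμ.pow_inj (ZMod.val_lt _) hlt h4
        apply Units.ext
        have h6 : ((c σ : ZMod (ℓ ^ (k + 1))).val : ZMod (ℓ ^ (k + 1))) = ((1 : ℕ) : ZMod (ℓ ^ (k + 1))) := by
          rw [h5]
        rw [ZMod.natCast_zmod_val, Nat.cast_one] at h6
        exact h6
      show f ⟨c σ, _⟩ = 1
      have h3 : (⟨c σ, ⟨⟨σ, h⟩, rfl⟩⟩ : C) = 1 := Subtype.ext h2
      exact (congrArg f h3).trans (map_one f)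
  · intro h1
    apply hf
    ext z
    obtain ⟨γ, hγ⟩ := z.2
    have h2 := DFunLike.congr_fun h1 γ
    have h3 : (c.comp Γ.subtype).rangeRestrict γ = z := Subtype.ext hγ
    rw [MonoidHom.comp_apply, h3] at h2
    rw [h2]
    rfl

end BKS
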