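import Pool.Agent.Helper64.BKS.Stmts

/-!
Project BKS, row EXU: extension of a homomorphism from `D` to `D M`.
-/

set_option autoImplicit false

open scoped Classical

namespace BKS

theorem st_EXU : ST_EXU := by
  intro G A _ _ D M hM φ hφ
  have hex : ∀ x : ↥(D ⊔ M), ∃ d : D, ∃ m ∈ M, (d : G) * m = x := by
    intro x
    have hx : (x : G) ∈ D ⊔ M := x.2
    rw [← SetLike.mem_coe, Subgroup.mul_normal, Set.mem_mul] at hx
    obtain ⟨d, hd, m, hm, h⟩ := hx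
    exact ⟨⟨d, hd⟩, m, hm, h⟩
  choose δ μ hμ hδμ using hex
  have huniq : ∀ (x : ↥(D ⊔ M)) (d : D) (m : G), m ∈ M → (d : G) * m = x → φ (δ x) = φ d := by
    intro x d m hm h
    have h1 : (d : G)⁻¹ * (δ x : G) = m * (μ x)⁻¹ := by
      have h2 : (d : G) * m = (δ x : G) * μ x := by rw [h, hδμ x]
      have h3 : (δ x : G) = (d : G) * m * (μ x)⁻¹ := by rw [h2]; group
      rw [h3]
      group
    have h4 : ((d⁻¹ * δ x : D) : G) ∈ M := by
      show (d : G)⁻¹ * (δ x : G) ∈ M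
      rw [h1]
      exact M.mul_mem hm (M.inv_mem (hμ x))
    have h5 := hφ _ (d⁻¹ * δ x).2 h4
    have h6 : φ (d⁻¹ * δ x) = 1 := h5
    rw [map_mul, map_inv] at h6
    exact (inv_mul_eq_one.mp h6).symm
  refine ⟨MonoidHom.mk' (fun x => φ (δ x)) ?_, ?_, ?_⟩
  · intro x y
    rw [← map_mul]
    refine huniq (x * y) (δ x * δ y) ((δ y : G)⁻¹ * μ x * (δ y : G) * μ y) ?_ ?_
    · refine M.mul_mem ?_ (hμ y)
      have := hM.conj_mem (μ x) (hμ x) (δ y : G)⁻¹
      rw [inv_inv] at this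
      exact this
    · show (δ x : G) * (δ y : G) * ((δ y : G)⁻¹ * μ x * (δ y : G) * μ y) = (x : G) * (y : G)
      rw [← hδμ x, ← hδμ y]
      group
  · intro d h h'
    exact huniq ⟨d, h'⟩ ⟨d, h⟩ 1 M.one_mem (mul_one d)
  · intro m hm h'
    show φ (δ ⟨m, h'⟩) = 1
    rw [huniq ⟨m, h'⟩ 1 m hm (one_mul m), map_one]

end BKS
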