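import Pool.Agent.Helper64.BKS.Stmts

/-!
Project BKS, row KUM: Kummer theory, characters come from elements.
-/

set_option autoImplicit false

open NumberField
open scoped Classical

namespace BKS

open BKA (Gal Zb Pl q Over Congr)

theorem st_KUM : ST_KUM := by
  intro F _ _ H hH ℓ hℓ ζ hζ hζH ϕ hϕ
  have : Fact ℓ.Prime := ⟨hℓ⟩
  have : NeZero ℓ := ⟨hℓ.ne_zero⟩
  obtain ⟨M, hM, hMϕ⟩ := hϕ
  have hζ0 : ζ ≠ 0 := hζ.ne_zero hℓ.ne_zero
  -- the kernel
  let W : Subgroup (Gal F) := ϕ.ker.map H.subtype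
  have hW : ∀ (σ : Gal F) (h : σ ∈ H), ϕ ⟨σ, h⟩ = 1 → σ ∈ W := by
    intro σ h h1
    exact ⟨⟨σ, h⟩, h1, rfl⟩
  have hW' : ∀ (σ : Gal F) (h : σ ∈ H), σ ∈ W → ϕ ⟨σ, h⟩ = 1 := by
    rintro σ h ⟨⟨τ, hτ⟩, h1, h2⟩
    have h3 : τ = σ := h2
    subst h3
    exact h1
  have hWo : IsOpen (W : Set (Gal F)) := by
    refine Subgroup.isOpen_mono (H₁ := H ⊓ M) ?_ (hH.inter hM)
    intro σ hσ
    exact hW σ hσ.1 (hMϕ σ hσ.1 hσ.2)
  have hWc : IsClosed (W : Set (Gal F)) := Subgroup.isClosed_of_isOpen W hWo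
  let L1 : IntermediateField F (AlgebraicClosure F) := IntermediateField.fixedField W
  have hfix : L1.fixingSubgroup = W := InfiniteGalois.fixingSubgroup_fixedField ⟨W, hWc⟩
  have hfixW : ∀ σ ∈ W, ∀ x : L1, σ (x : AlgebraicClosure F) = x := fun σ hσ x => x.2 ⟨σ, hσ⟩
  -- representatives
  have hex : ∀ a : ϕ.range, ∃ t : H, ϕ t = a := fun a => a.2
  choose τ hτ using hex
  let f : ϕ.range → (L1 →* AlgebraicClosure F) := fun a =>
    { toFun := fun x => (τ a : Gal F) (x : AlgebraicClosure F)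
      map_one' := by simp
      map_mul' := by simp }
  have hf : ∀ a x, f a x = (τ a : Gal F) (x : AlgebraicClosure F) := fun _ _ => rfl
  have hinj : Function.Injective f := by
    intro a b hab
    have h1 : (τ a : Gal F)⁻¹ * (τ b : Gal F) ∈ L1.fixingSubgroup := by
      rw [IntermediateField.mem_fixingSubgroup_iff]
      intro x hx
      have h2 : (τ a : Gal F) x = (τ b : Gal F) x := DFunLike.congr_fun hab ⟨x, hx⟩
      show (τ a : Gal F)⁻¹ ((τ b : Gal F) x) = x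
      rw [← h2]
      exact (τ a : Gal F).symm_apply_apply x
    rw [hfix] at h1
    have h3 := hW' _ (H.mul_mem (H.inv_mem (τ a).2) (τ b).2) h1
    have h4 : ϕ ((τ a)⁻¹ * τ b) = 1 := h3
    rw [map_mul, map_inv, hτ, hτ] at h4
    exact Subtype.ext (inv_mul_eq_one.mp h4)
  have hli := (linearIndependent_monoidHom L1 (AlgebraicClosure F)).comp f hinj
  let R : L1 → AlgebraicClosure F := fun x =>
    ∑ a : ϕ.range, (ζ⁻¹) ^ (Multiplicative.toAdd (a : Multiplicative (ZMod ℓ))).val *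
      (τ a : Gal F) (x : AlgebraicClosure F)
  have hR0 : ∃ x, R x ≠ 0 := by
    by_contra hcon
    push Not at hcon
    have h1 := Fintype.linearIndependent_iff.mp hli
      (fun a => (ζ⁻¹) ^ (Multiplicative.toAdd (a : Multiplicative (ZMod ℓ))).val) (by
        funext x
        have h2 := hcon x
        rw [Finset.sum_apply]
        exact h2) 1
    exact pow_ne_zero _ (inv_ne_zero hζ0) h1
  obtain ⟨x, hx⟩ := hR0
  -- equivariance
  have hpow : ∀ s a : ZMod ℓ, ζ ^ s.val * ζ⁻¹ ^ (s + a).val = ζ⁻¹ ^ a.val := by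
    intro s a
    have h1 : ζ⁻¹ ^ ℓ = 1 := by rw [inv_pow, hζ.pow_eq_one, inv_one]
    rw [ZMod.val_add, ← pow_eq_pow_mod _ h1, pow_add, ← mul_assoc, inv_pow, mul_inv_cancel₀ (pow_ne_zero _ hζ0),
      one_mul]
  have hequiv : ∀ (σ : Gal F) (h : σ ∈ H), σ (R x) =
      ζ ^ (Multiplicative.toAdd (ϕ ⟨σ, h⟩)).val * R x := by
    intro σ h
    let s : ϕ.range := ⟨ϕ ⟨σ, h⟩, ⟨σ, h⟩, rfl⟩
    have h1 : σ (R x) = ∑ a : ϕ.range,
        (ζ⁻¹) ^ (Multiplicative.toAdd (a : Multiplicative (ZMod ℓ))).val *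
          σ ((τ a : Gal F) (x : AlgebraicClosure F)) := by
      show σ (∑ a : ϕ.range, _) = _
      rw [map_sum]
      refine Finset.sum_congr rfl fun a _ => ?_
      rw [map_mul, map_pow, map_inv₀, hζH σ h]
    have h2 : ∀ a : ϕ.range, σ ((τ a : Gal F) (x : AlgebraicClosure F)) =
        (τ (s * a) : Gal F) (x : AlgebraicClosure F) := by
      intro a
      have hmem : (τ (s * a) : Gal F)⁻¹ * (σ * (τ a : Gal F)) ∈ W := by
        refine hW _ (H.mul_mem (H.inv_mem (τ (s * a)).2) (H.mul_mem h (τ a).2)) ?_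
        show ϕ ((τ (s * a))⁻¹ * (⟨σ, h⟩ * τ a)) = 1
        rw [map_mul, map_inv, map_mul, hτ, hτ]
        exact inv_mul_cancel _
      have h3 := hfixW _ hmem x
      have h4 : (τ (s * a) : Gal F) (((τ (s * a) : Gal F)⁻¹ * (σ * (τ a : Gal F))) (x : AlgebraicClosure F)) =
          σ ((τ a : Gal F) (x : AlgebraicClosure F)) :=
        (τ (s * a) : Gal F).apply_symm_apply _
      rw [← h4, h3]
    have h5 : R x = ∑ a : ϕ.range, (ζ⁻¹) ^ (Multiplicative.toAdd ((s * a : ϕ.range) :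
        Multiplicative (ZMod ℓ))).val * (τ (s * a) : Gal F) (x : AlgebraicClosure F) :=
      (Equiv.sum_comp (Equiv.mulLeft s)
        (fun a : ϕ.range => (ζ⁻¹) ^ (Multiplicative.toAdd (a : Multiplicative (ZMod ℓ))).val *
          (τ a : Gal F) (x : AlgebraicClosure F))).symm
    rw [h1, h5, Finset.mul_sum]
    refine Finset.sum_congr rfl fun a _ => ?_
    rw [h2 a, ← mul_assoc]
    congr 1
    exact (hpow (Multiplicative.toAdd (ϕ ⟨σ, h⟩)) (Multiplicative.toAdd (a : Multiplicative (ZMod ℓ)))).symm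
  have halg : IsAlgebraic ℤ (R x) := by
    have : Algebra.IsAlgebraic ℚ (AlgebraicClosure F) := Algebra.IsAlgebraic.trans ℚ F _
    have : IsAlgebraic ℚ (R x) := Algebra.IsAlgebraic.isAlgebraic _
    exact (IsFractionRing.isAlgebraic_iff ℤ ℚ (AlgebraicClosure F)).mpr this
  obtain ⟨n, hn, hy⟩ := halg.exists_integral_multiple
  refine ⟨⟨n • R x, hy⟩, ?_, ?_⟩
  · intro h0
    have h1 : n • R x = 0 := congrArg Subtype.val h0
    rw [zsmul_eq_mul] at h1
    exact (mul_ne_zero (by exact_mod_cast hn) hx) h1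
  · intro σ h
    show σ (n • R x) = _ * (n • R x)
    rw [map_zsmul, hequiv σ h, mul_smul_comm]

end BKS
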